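import Pool.Agent.W485.RL.Stm

/-! Project RL (helper485), task Lim: limits of holomorphic functions on the ball. -/

set_option autoImplicit false

open MeasureTheory Filter Topology Metric

namespace Pool.Agent.W639.RL

open Pool.Agent.W485.RL

theorem nz_continuous (n : ℕ) : Continuous (nz : (Fin n → ℂ) → ℝ) := by
  unfold nz
  fun_prop

/-- Cauchy estimate for the derivative -/
theorem cauchy {n : ℕ} {G : (Fin n → ℂ) → ℂ} (hG : Differentiable ℂ G) {z0 z : Fin n → ℂ}
    {δ C : ℝ} (hδ : 0 < δ) (hC : 0 ≤ C) (hb : ∀ y ∈ ball z0 (2 * δ), ‖G y‖ ≤ C)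
    (hz : z ∈ ball z0 δ) : ‖fderiv ℂ G z‖ ≤ C / δ := by
  refine ContinuousLinearMap.opNorm_le_of_unit_norm (by positivity) fun v hv => ?_
  have hg : ∀ t : ℂ, HasDerivAt (fun t : ℂ => G (z + t • v)) (fderiv ℂ G (z + t • v) v) t := by
    intro t
    have h1 : HasFDerivAt G (fderiv ℂ G (z + t • v)) (z + t • v) := (hG _).hasFDerivAt
    have h2 : HasDerivAt (fun t : ℂ => z + t • v) v t := by
      have := ((hasDerivAt_id t).smul_const v).const_add z
      simpa using this
    exact h1.comp_hasDerivAt t h2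
  have hd : DiffContOnCl ℂ (fun t : ℂ => G (z + t • v)) (ball 0 δ) :=
    Differentiable.diffContOnCl (fun t => (hg t).differentiableAt)
  have h3 := Complex.norm_deriv_le_of_forall_mem_sphere_norm_le (c := 0) hδ hd (C := C) (fun t ht => by
    apply hb
    rw [mem_ball, dist_eq_norm] at hz ⊢
    rw [mem_sphere, dist_zero_right] at ht
    have : z + t • v - z0 = (z - z0) + t • v := by abel
    rw [this]
    refine (norm_add_le _ _).trans_lt ?_
    rw [norm_smul, ht, hv]
    linarith)
  rw [(hg 0).deriv] at h3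
  simpa using h3

theorem t_Lim (n : ℕ) : SLim n := by
  intro F r ε hF hr hr1 hε hs hd
  have hD : ∀ (j : ℕ) (z : Fin n → ℂ), nz z ≤ r j →
      Summable (fun i => F (i + j + 1) z - F (i + j) z) ∧
      ‖∑' i, (F (i + j + 1) z - F (i + j) z)‖ ≤ ∑' i, ε (i + j) := by
    intro j z hz
    have hb : ∀ i, ‖F (i + j + 1) z - F (i + j) z‖ ≤ ε (i + j) := fun i =>
      hd (i + j) z (hz.trans (hr (by omega)))
    have hs' : Summable (fun i => ε (i + j)) := (summable_nat_add_iff j).2 hs
    exact ⟨Summable.of_norm_bounded hs' hb, tsum_of_norm_bounded hs'.hasSum hb⟩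
  have hex : ∀ a : ℝ, a < 1 → ∃ j, a ≤ r j := by
    intro a ha
    exact ((hr1.eventually (lt_mem_nhds ha)).exists).imp fun j hj => le_of_lt hj
  have hsum : ∀ z : Fin n → ℂ, nz z < 1 → Summable (fun i => F (i + 1) z - F i z) := by
    intro z hz
    obtain ⟨j, hj⟩ := hex _ hz
    exact (summable_nat_add_iff j).1 (hD j z hj).1
  have heq : ∀ (j : ℕ) (z : Fin n → ℂ), nz z < 1 →
      F 0 z + ∑' i, (F (i + 1) z - F i z) = F j z + ∑' i, (F (i + j + 1) z - F (i + j) z) := by
    intro j z hz
    have h1 := (hsum z hz).sum_add_tsum_nat_add j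
    have h2 := Finset.sum_range_sub (fun i => F i z) j
    rw [h2] at h1
    rw [← h1]
    ring
  refine ⟨fun z => F 0 z + ∑' i, (F (i + 1) z - F i z), ?_, ?_⟩
  · intro z0 hz0
    have hz0' : nz z0 < 1 := hz0
    apply DifferentiableAt.differentiableWithinAt
    obtain ⟨j, hj⟩ := hex ((nz z0 + 1) / 2) (by linarith)
    have hop : IsOpen {z : Fin n → ℂ | nz z < (nz z0 + 1) / 2} :=
      isOpen_lt (nz_continuous n) continuous_const
    obtain ⟨δ', hδ', hball⟩ := Metric.isOpen_iff.1 hop z0 (by
      show nz z0 < (nz z0 + 1) / 2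
      linarith)
    have hδ : 0 < δ' / 2 := by positivity
    have hball' : ∀ y ∈ ball z0 (2 * (δ' / 2)), nz y < (nz z0 + 1) / 2 := by
      intro y hy
      have : 2 * (δ' / 2) = δ' := by ring
      rw [this] at hy
      exact hball hy
    have hsub : ball z0 (δ' / 2) ⊆ ball z0 (2 * (δ' / 2)) := ball_subset_ball (by linarith)
    have hs' : Summable (fun i => ε (i + j) / (δ' / 2)) :=
      ((summable_nat_add_iff j).2 hs).div_const _
    have hdG : ∀ i, Differentiable ℂ (fun z => F (i + j + 1) z - F (i + j) z) := fun i =>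
      (hF _).sub (hF _)
    have key := hasFDerivAt_tsum_of_isPreconnected (𝕜 := ℂ) (u := fun i => ε (i + j) / (δ' / 2))
      (f := fun (i : ℕ) (z : Fin n → ℂ) => F (i + j + 1) z - F (i + j) z)
      (f' := fun (i : ℕ) (z : Fin n → ℂ) => fderiv ℂ (fun z => F (i + j + 1) z - F (i + j) z) z)
      (s := ball z0 (δ' / 2)) (x₀ := z0) (x := z0) hs' isOpen_ball
      (convex_ball z0 (δ' / 2)).isPreconnected
      (fun i x _ => (hdG i x).hasFDerivAt)
      (fun i x hx => cauchy (hdG i) hδ (hε _) (fun y hy =>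
        hd (i + j) y (((hball' y hy).le.trans hj).trans (hr (by omega)))) hx)
      (mem_ball_self hδ) (hD j z0 (by linarith)).1 (mem_ball_self hδ)
    have h5 : DifferentiableAt ℂ (fun z => F j z + ∑' i, (F (i + j + 1) z - F (i + j) z)) z0 :=
      (hF j z0).add key.differentiableAt
    refine h5.congr_of_eventuallyEq ?_
    filter_upwards [isOpen_ball.mem_nhds (mem_ball_self hδ)] with y hy
    exact heq j y (by have := hball' y (hsub hy); linarith)
  · intro j z hz hz1
    show ‖F 0 z + ∑' i, (F (i + 1) z - F i z) - F j z‖ ≤ _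
    rw [heq j z hz1, add_sub_cancel_left]
    exact (hD j z hz).2

end Pool.Agent.W639.RL
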